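import Pool.Agent.Y606.AN.Game
import Pool.Agent.H578R2.ANN.PolyI

/-!
# Annihilation with one unrestricted token: instances
-/

set_option autoImplicit false

namespace Pool.Agent.Y606.AN

open Pool.Agent.NPC Pool.Agent.NPC.ANN Pool.Agent.H820R2.SS

/-- Positions with two token types and with exactly one token of type `0`, which may use every
edge; the tokens of type `1` are confined to pairwise disjoint regions (the sets `r v = c`) with at
most four vertices, and every region contains at most one of them. -/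
structure Confined (A : Annih) : Prop where
  types : A.2.1.length = 2
  free : A.2.1.getD 0 [] = A.1
  one : A.2.2.count (some 0) = 1
  region : ∃ r : ℕ → ℕ, (∀ e ∈ A.2.1.getD 1 [], r e.1 = r e.2) ∧
    ∀ c, ((Finset.range A.2.2.length).filter fun v => r v = c).card ≤ 4 ∧
      ((Finset.range A.2.2.length).filter fun v => r v = c ∧ A.2.2.getD v none = some 1).card ≤ 1

/-- all edges -/
def aL (M : ARM) (z z' : Lb) : Bool := cL M z z' || rL z z'

theorem aL_code (M : ARM) (u v : V) : aL M (code u) (code v) = (cadj M u v || radjV u v) := by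
  unfold aL
  rw [cL_code, rL_code]

/-- the token on a vertex -/
def tk (c : ℕ) (z : Lb) : Option ℕ := bif decide (z = (c, 0, 0, 0)) then some 0
  else bif decide (z.1 = 11) && decide (z.2.2.1 = 0) then some 1 else none

/-- The instance. -/
def instA (c : ℕ) (M : ARM) : Annih :=
  (edg (vs M) (aL M), [edg (vs M) (aL M), edg (vs M) rL], (vs M).map (fun z => tk c z))

theorem instA_edges (c : ℕ) (M : ARM) (i x y : ℕ) : (x, y) ∈ (instA c M).2.1.getD i [] ↔
    ∃ u v, EF M i u v ∧ nu M u = x ∧ nu M v = y := by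
  rcases i with _ | _ | i
  · simp only [instA, List.getD_cons_zero]
    rw [mem_edg]
    constructor
    · rintro ⟨u, v, hu, hv, h, h1, h2⟩
      exact ⟨u, v, ⟨hu, hv, by rw [aL_code] at h; exact h⟩, h1, h2⟩
    · rintro ⟨u, v, ⟨hu, hv, h⟩, h1, h2⟩
      exact ⟨u, v, hu, hv, by rw [aL_code]; exact h, h1, h2⟩
  · simp only [instA, List.getD_cons_succ, List.getD_cons_zero]
    rw [mem_edg]
    constructor
    · rintro ⟨u, v, hu, hv, h, h1, h2⟩
      exact ⟨u, v, ⟨hu, hv, by rw [rL_code] at h; exact h⟩, h1, h2⟩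
    · rintro ⟨u, v, ⟨hu, hv, h⟩, h1, h2⟩
      exact ⟨u, v, hu, hv, by rw [rL_code]; exact h, h1, h2⟩
  · simp only [instA, List.getD_cons_succ, List.getD_nil, List.not_mem_nil, false_iff]
    rintro ⟨u, v, ⟨hu, hv, h⟩, h1, h2⟩
    simp at h

theorem instA_start (c : ℕ) (M : ARM) : start (instA c M) = start (inst c M) := rfl

theorem instA_forces {c : ℕ} {M : ARM} {v0 : V} (hc : code v0 = (c, 0, 0, 0))
    (h0 : ctrl v0 = true) (hok : ok M v0 = true) (w : Bool) :
    Forces (Mv (instA c M)) w (start (instA c M)) ↔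
    Forces (SStep M) w (some v0, cf M fun _ => false) := by
  have hi : Inv (some v0, cf M fun _ => false) := by
    intro j y h
    rw [Option.some.inj h] at h0
    simp [ctrl] at h0
  rw [forces_fplace hi]
  symm
  refine transport (ok := fun v => ok M v = true) (f := nu M) (fun i u v h => ⟨h.1, h.2.1⟩)
    (fun u v => nu_inj) (instA_edges c M) (fun v hv => ?_) (fun v hv => ?_) (fun x hx => ?_)
  · rw [instA_start]
    exact inst_start hc h0 v hv
  · refine place_of (fun h => hv ?_) (fun j y h => ?_)
    · rw [← Option.some.inj h]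
      exact hok
    · subst h
      have : ¬ j < M.1.length := by simpa [ok] using hv
      simp [cf, this]
  · unfold start
    rw [List.getD_eq_default]
    unfold instA
    simp only [List.length_map]
    by_contra hlt
    push Not at hlt
    obtain ⟨v, hv, hv'⟩ := nu_surj hlt
    exact hx v hv hv'

theorem instA_isPosition (c : ℕ) (M : ARM) : IsPosition (instA c M) := by
  have hlen : (instA c M).2.2.length = (vs M).length := by
    simp [instA]
  have hsub : ∀ e ∈ edg (vs M) rL, e ∈ edg (vs M) (aL M) := by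
    rintro ⟨x, y⟩ he
    obtain ⟨u, v, hu, hv, h, h1, h2⟩ := mem_edg.1 he
    refine mem_edg.2 ⟨u, v, hu, hv, ?_, h1, h2⟩
    unfold aL
    rw [h, Bool.or_true]
  refine ⟨?_, ?_, ?_, ?_⟩
  · rw [hlen]
    rintro ⟨x, y⟩ he
    obtain ⟨u, v, hu, hv, h, rfl, rfl⟩ := mem_edg.1 he
    refine ⟨nu_lt hu, nu_lt hv, fun h2 => ?_⟩
    have h3 := nu_inj hu hv h2
    rw [aL_code, Bool.or_eq_true] at h
    rcases h with h | h
    · exact cadj_ne h h3
    · subst h3
      cases u <;> simp [radjV] at h
      exact radj_ne h rfl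
  · simp [instA]
  · intro l hl e he
    simp only [instA, List.mem_cons, List.not_mem_nil, or_false] at hl
    rcases hl with rfl | rfl
    · exact he
    · exact hsub e he
  · intro i hi
    simp only [instA, List.mem_map] at hi
    obtain ⟨z, -, hz⟩ := hi
    show i < 2
    revert hz
    unfold tk
    cases decide (z = (c, 0, 0, 0)) <;> cases (decide (z.1 = 11) && decide (z.2.2.1 = 0)) <;>
      simp <;> omega

/-! ### The regions -/

/-- the representative of a region -/
def rep : V → V
  | .reg j _ => .reg j (.p false)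
  | v => v

/-- the representative of a region, on labels -/
def repL (z : Lb) : Lb := if 11 ≤ z.1 then (11, z.2.1, 0, 0) else z

theorem repL_code (v : V) : repL (code v) = code (rep v) := by
  rcases v with _ | _ | _ | _ | _ | _ | r | ⟨r, i, k⟩ | ⟨r, i, k⟩ | ⟨r, i, k⟩ | ⟨r, i, k⟩ |
    ⟨j, y | _ | _⟩ <;> simp [repL, rep, code]

theorem ok_rep {M : ARM} {v : V} (h : ok M v = true) : ok M (rep v) = true := by
  cases v <;> simpa [rep, ok] using h

/-- the region of a vertex -/
def cls : V → Finset V
  | .reg j _ => {.reg j (.p false), .reg j (.p true), .reg j .q, .reg j .t}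
  | v => {v}

theorem mem_cls {u v : V} (h : rep u = rep v) : u ∈ cls v := by
  cases u <;> cases v <;> simp_all [rep, cls]
  rename_i y _ _
  rcases y with b | _ | _
  · cases b <;> simp
  · simp
  · simp

theorem card_cls (v : V) : (cls v).card ≤ 4 := by
  cases v <;> first | exact Finset.card_le_four | simp [cls]

/-- the number of the region of a vertex -/
def rg (M : ARM) (x : ℕ) : ℕ := (vs M).idxOf (repL ((vs M).getD x (0, 0, 0, 0)))

theorem rg_nu {M : ARM} {v : V} (h : ok M v = true) : rg M (nu M v) = nu M (rep v) := by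
  unfold rg
  rw [nu_get h, repL_code]
  rfl

theorem tk_one {c : ℕ} {v : V} (h : tk c (code v) = some 1) : ∃ j, v = .reg j (.p false) := by
  unfold tk at h
  by_cases h1 : code v = (c, 0, 0, 0)
  · rw [decide_eq_true h1] at h
    simp at h
  · rw [decide_eq_false h1, cond_false] at h
    rcases v with _ | _ | _ | _ | _ | _ | r | ⟨r, i, k⟩ | ⟨r, i, k⟩ | ⟨r, i, k⟩ | ⟨r, i, k⟩ |
      ⟨j, y | _ | _⟩ <;> simp [code] at h
    cases y
    · exact ⟨j, rfl⟩
    · simp at h

theorem confined_instA {c : ℕ} {M : ARM} {v0 : V} (hc : code v0 = (c, 0, 0, 0))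
    (hok : ok M v0 = true) : Confined (instA c M) := by
  have hlen : (instA c M).2.2.length = (vs M).length := by
    simp [instA]
  have hget : ∀ v, ok M v = true → (instA c M).2.2.getD (nu M v) none = tk c (code v) := by
    intro v hv
    simp only [instA]
    rw [List.getD_eq_getElem _ _ (by rw [List.length_map]; exact nu_lt hv), List.getElem_map]
    have h2 := nu_get hv (0, 0, 0, 0)
    rw [List.getD_eq_getElem _ _ (nu_lt hv)] at h2
    rw [h2]
  refine ⟨rfl, rfl, ?_, rg M, ?_, fun d => ⟨?_, ?_⟩⟩
  · have h1 : (instA c M).2.2.count (some 0) = (vs M).count (c, 0, 0, 0) := by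
      simp only [instA, List.count, List.countP_map]
      refine List.countP_congr fun z _ => ?_
      simp only [Function.comp, beq_iff_eq, tk]
      by_cases hz : z = (c, 0, 0, 0)
      · rw [decide_eq_true hz, cond_true]
        simp [hz]
      · rw [decide_eq_false hz, cond_false]
        cases (decide (z.1 = 11) && decide (z.2.2.1 = 0)) <;> simp [hz]
    rw [h1]
    refine List.count_eq_one_of_mem (vs_nodup M) ?_
    rw [← hc]
    exact mem_vs.2 ⟨v0, hok, rfl⟩
  · rintro ⟨x, y⟩ he
    have he' : (x, y) ∈ edg (vs M) rL := he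
    obtain ⟨u, v, hu, hv, h, rfl, rfl⟩ := mem_edg.1 he'
    rw [rL_code] at h
    show rg M (nu M u) = rg M (nu M v)
    rw [rg_nu hu, rg_nu hv]
    cases u <;> cases v <;> simp [radjV] at h
    rw [h.1]
    rfl
  · rw [hlen]
    by_cases hne : ((Finset.range (vs M).length).filter fun v => rg M v = d) = ∅
    · rw [hne]
      simp
    · obtain ⟨x0, hx0⟩ := Finset.nonempty_iff_ne_empty.2 hne
      rw [Finset.mem_filter, Finset.mem_range] at hx0
      obtain ⟨u, hu, rfl⟩ := nu_surj hx0.1
      have h1 : ((Finset.range (vs M).length).filter fun v => rg M v = d) ⊆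
          (cls u).image (nu M) := by
        intro x hx
        rw [Finset.mem_filter, Finset.mem_range] at hx
        obtain ⟨v, hv, rfl⟩ := nu_surj hx.1
        refine Finset.mem_image.2 ⟨v, mem_cls ?_, rfl⟩
        refine nu_inj (ok_rep hv) (ok_rep hu) ?_
        rw [← rg_nu hv, ← rg_nu hu, hx.2, hx0.2]
      exact (Finset.card_le_card h1).trans (Finset.card_image_le.trans (card_cls u))
  · rw [hlen, Finset.card_le_one]
    intro x hx y hy
    rw [Finset.mem_filter, Finset.mem_range] at hx hy
    obtain ⟨u, hu, rfl⟩ := nu_surj hx.1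
    obtain ⟨v, hv, rfl⟩ := nu_surj hy.1
    rw [hget u hu] at hx
    rw [hget v hv] at hy
    obtain ⟨j, rfl⟩ := tk_one hx.2.2
    obtain ⟨k, rfl⟩ := tk_one hy.2.2
    have h1 : nu M (rep (.reg j (.p false))) = nu M (rep (.reg k (.p false))) := by
      rw [← rg_nu hu, ← rg_nu hv, hx.2.1, hy.2.1]
    exact h1

/-! ### Polynomial time -/

theorem poly_instA (c : ℕ) : Poly (fun M : ARM => instA c M) := by
  have h0 := poly_vs
  have h1 : Poly (fun M : ARM => edg (vs M) (aL M)) := by
    refine poly_edg (t := fun M => aL M) ?_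
    have h2 := poly_cL (M := fun p : ARM × (Lb × Lb) => p.1) (z := fun p => p.2.1)
      (z' := fun p => p.2.2) (by fun_prop) (by fun_prop) (by fun_prop)
    have h3 := poly_rL (z := fun p : ARM × (Lb × Lb) => p.2.1)
      (z' := fun p => p.2.2) (by fun_prop) (by fun_prop)
    unfold aL
    fun_prop
  have h2 : Poly (fun M : ARM => edg (vs M) rL) := by
    refine poly_edg (t := fun _ => rL) ?_
    exact poly_rL (z := fun p : ARM × (Lb × Lb) => p.2.1)
      (z' := fun p => p.2.2) (by fun_prop) (by fun_prop)
  unfold instA tk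
  fun_prop

/-- Exponential-time hardness, for the three outcomes. -/
theorem hard_win {S : Set (List Bool)}
    (hS : ∀ A : Annih, IsPosition A → Confined A → (bits A ∈ S ↔ MoverWins A))
    {L : Set (List Bool)} (hL : InEXPTIME L) : Reduces L S := by
  obtain ⟨f, h1, h2, h3⟩ := ARM578.exptime_arm (L := L) hL
  refine ⟨fun x => bits (instA 0 (f x)), PC.toPolyTime_bits (poly_instA 0) f h1, fun x => ?_⟩
  rw [hS _ (instA_isPosition _ _) (confined_instA (v0 := .G) rfl rfl), MoverWins,
    instA_forces (v0 := .G) rfl rfl rfl]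
  rw [h3 x, ARMAcc]
  exact (win_G (h2 x) _).symm

theorem hard_lose {S : Set (List Bool)}
    (hS : ∀ A : Annih, IsPosition A → Confined A → (bits A ∈ S ↔ OtherWins A))
    {L : Set (List Bool)} (hL : InEXPTIME L) : Reduces L S := by
  obtain ⟨f, h1, h2, h3⟩ := ARM578.exptime_arm (L := L) hL
  refine ⟨fun x => bits (instA 1 (f x)), PC.toPolyTime_bits (poly_instA 1) f h1, fun x => ?_⟩
  rw [hS _ (instA_isPosition _ _) (confined_instA (v0 := .I) rfl rfl), OtherWins,
    instA_forces (v0 := .I) rfl rfl rfl]
  rw [h3 x, ARMAcc]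
  exact (lose_I (h2 x) _).symm

theorem hard_draw {S : Set (List Bool)}
    (hS : ∀ A : Annih, IsPosition A → Confined A → (bits A ∈ S ↔ Drawn A))
    {L : Set (List Bool)} (hL : InEXPTIME L) : Reduces L S := by
  obtain ⟨f, h1, h2, h3⟩ := ARM578.exptime_arm_compl (L := L) hL
  refine ⟨fun x => bits (instA 0 (f x)), PC.toPolyTime_bits (poly_instA 0) f h1, fun x => ?_⟩
  rw [hS _ (instA_isPosition _ _) (confined_instA (v0 := .G) rfl rfl), Drawn, MoverWins, OtherWins,
    instA_forces (v0 := .G) rfl rfl rfl, instA_forces (v0 := .G) rfl rfl rfl]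
  have h4 := h3 x
  rw [ARMAcc, ← win_G (h2 x)] at h4
  rw [← not_iff_not, h4]
  constructor
  · intro h h'
    exact h'.1 h
  · intro h
    by_contra h'
    exact h ⟨h', not_lose_G _⟩

end Pool.Agent.Y606.AN
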