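import Pool.Agent.H578R2.ANN.Rej

/-!
# Annihilation: a control token which may use every edge

The board of `Pool.Agent.H578R2.ANN`, but tokens of type `0` may in addition use the edges of the
register tokens. This does not change the outcomes, since the control token never profits from
entering the regions of the register tokens.
-/

set_option autoImplicit false

namespace Pool.Agent.Y606.AN

open Pool.Agent.NPC.ANN Pool.Agent.H820R2.SS

/-- Additional moves which start at positions that are won for the player to move do not change
the outcomes. -/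
theorem forces_extra {α : Type} {mv ex : α → α → Prop} (h : ∀ p q, ex p q → Forces mv true p)
    {w : Bool} {p : α} : Forces (fun a b => mv a b ∨ ex a b) w p ↔ Forces mv w p := by
  constructor
  · intro h1
    induction h1 with
    | @win p q h2 _ ih =>
      rcases h2 with h2 | h2
      · exact .win h2 ih
      · exact h p q h2
    | lose _ ih => exact .lose fun q hq => ih q (Or.inl hq)
  · intro h1
    induction h1 with
    | win h2 _ ih => exact .win (Or.inl h2) ih
    | @lose p h2 ih =>
      refine .lose fun q hq => ?_
      rcases hq with hq | hq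
      · exact ih q hq
      · exact absurd (Forces.lose h2) (h p q hq).not_both

/-- The edges of tokens of type `i`: tokens of type `0` may use all edges. -/
def EF (M : ARM) (i : ℕ) (u v : V) : Prop :=
  ok M u = true ∧ ok M v = true ∧
    (bif decide (i = 0) then cadj M u v || radjV u v else decide (i = 1) && radjV u v) = true

theorem EF_of_EE {M : ARM} {i : ℕ} {u v : V} (h : EE M i u v) : EF M i u v := by
  obtain ⟨h1, h2, h3⟩ := h
  refine ⟨h1, h2, ?_⟩
  by_cases hi : i = 0
  · subst hi
    simp only [decide_true, cond_true] at h3 ⊢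
    rw [h3, Bool.true_or]
  · rw [decide_eq_false hi] at h3 ⊢
    exact h3

/-- The additional moves. -/
inductive XStep (M : ARM) : St → St → Prop
  | mv {j : ℕ} {y y' : Y} {ρ : ℕ → Option Y} (hj : j < M.1.length) (h : radj y y' = true)
      (ho : ρ j ≠ some y') : XStep M (some (.reg j y), ρ) (some (.reg j y'), ρ)
  | cp {j : ℕ} {y y' : Y} {ρ : ℕ → Option Y} (hj : j < M.1.length) (h : radj y y' = true)
      (ho : ρ j = some y') : XStep M (some (.reg j y), ρ) (none, Function.update ρ j none)

/-- All moves. -/
def FStep (M : ARM) (s s' : St) : Prop := SStep M s s' ∨ XStep M s s'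

theorem forces_F {M : ARM} {w : Bool} {s : St} :
    Forces (FStep M) w s ↔ Forces (SStep M) w s := by
  refine forces_extra fun p q h => ?_
  cases h with
  | mv hj h ho => exact win_reg hj
  | cp hj h ho => exact win_reg hj

theorem FStep.inv {M : ARM} {s s' : St} (h : FStep M s s') (hs : Inv s) : Inv s' := by
  rcases h with h | h
  · exact h.inv hs
  · cases h with
    | @mv j y y' ρ hj h ho =>
      intro j' z hz
      obtain ⟨rfl, rfl⟩ := V.reg.inj (Option.some.inj hz)
      exact ho
    | cp hj h ho =>
      intro j' z hz
      simp at hz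

theorem fplace_step {M : ARM} {s s' : St} (hs : Inv s) (h : FStep M s s') :
    GMove (EF M) (place s) (place s') := by
  rcases h with h | h
  · obtain ⟨i, u, v, h1, h2, h3⟩ := place_step hs h
    exact ⟨i, u, v, h1, EF_of_EE h2, h3⟩
  · cases h with
    | @mv j y y' ρ hj h ho =>
      refine ⟨0, .reg j y, .reg j y', place_eq_zero rfl,
        ⟨by simpa [ok] using hj, by simpa [ok] using hj, ?_⟩, ?_⟩
      · simp [radjV, h]
      · refine eq_ctl ?_ (fun j'' z hz => hs j'' z (by rw [hz])) fun j'' z hz => ?_
        · intro h'
          exact radj_ne h (V.reg.inj h').2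
        · obtain ⟨rfl, rfl⟩ := V.reg.inj hz
          exact ho
    | @cp j y y' ρ hj h ho =>
      refine ⟨0, .reg j y, .reg j y', place_eq_zero rfl,
        ⟨by simpa [ok] using hj, by simpa [ok] using hj, ?_⟩, ?_⟩
      · simp [radjV, h]
      · refine eq_cap ?_ (fun j'' z hz => hs j'' z (by rw [hz])) ho
        intro h'
        exact radj_ne h (V.reg.inj h').2

theorem fplace_move {M : ARM} {s : St} {Q : V → Option ℕ} (hs : Inv s)
    (h : GMove (EF M) (place s) Q) : ∃ s', FStep M s s' ∧ Q = place s' := by
  obtain ⟨i, u, v, h1, h2, h3⟩ := h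
  by_cases h4 : EE M i u v
  · obtain ⟨s', h5, h6⟩ := place_move hs ⟨i, u, v, h1, h4, h3⟩
    exact ⟨s', Or.inl h5, h6⟩
  · obtain ⟨c, ρ⟩ := s
    obtain ⟨h5, h6, h7⟩ := h2
    have hi : i = 0 := by
      by_contra hi
      rw [decide_eq_false hi] at h7
      exact h4 ⟨h5, h6, by rw [decide_eq_false hi]; exact h7⟩
    subst hi
    simp only [decide_true, cond_true, Bool.or_eq_true] at h7
    have h8 : radjV u v = true := by
      rcases h7 with h7 | h7
      · exact absurd ⟨h5, h6, by simpa using h7⟩ h4
      · exact h7
    rcases place_cases h1 with ⟨-, hc⟩ | ⟨h9, -⟩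
    · simp only at hc
      subst hc
      cases u with
      | reg j y =>
        cases v with
        | reg j' y' =>
          simp only [radjV, Bool.and_eq_true, decide_eq_true_eq] at h8
          obtain ⟨rfl, h8⟩ := h8
          have hj : j < M.1.length := by simpa [ok] using h5
          have hne : (V.reg j y) ≠ .reg j y' := fun h' => radj_ne h8 (V.reg.inj h').2
          have hin : ∀ j' z, V.reg j y = .reg j' z → ρ j' ≠ some z :=
            fun j' z hz => hs j' z (by rw [hz])
          by_cases ho : ρ j = some y'
          · exact ⟨_, Or.inr (.cp hj h8 ho), by rw [h3, eq_cap hne hin ho]⟩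
          · refine ⟨_, Or.inr (.mv hj h8 ho), ?_⟩
            rw [h3, eq_ctl hne hin fun j'' z hz => ?_]
            obtain ⟨rfl, rfl⟩ := V.reg.inj hz
            exact ho
        | _ => simp [radjV] at h8
      | _ => simp [radjV] at h8
    · exact absurd h9 (by decide)

/-- The outcomes of abstract positions. -/
theorem forces_fplace {M : ARM} {s : St} (hs : Inv s) {w : Bool} :
    Forces (SStep M) w s ↔ Forces (GMove (EF M)) w (place s) := by
  rw [← forces_F]
  refine Forces.bisim_iff (R := fun s P => Inv s ∧ P = place s) ?_ ?_ ⟨hs, rfl⟩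
  · rintro a _ ⟨ha, rfl⟩ a' h
    exact ⟨_, fplace_step ha h, h.inv ha, rfl⟩
  · rintro a _ ⟨ha, rfl⟩ b' h
    obtain ⟨s', h1, rfl⟩ := fplace_move ha h
    exact ⟨s', h1, h1.inv ha, rfl⟩

end Pool.Agent.Y606.AN
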